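import Mathlib

set_option autoImplicit false

/-!
# MP_a338c1_co: rook domination on the triangular board

`γ(n) = ⌊n/2⌋` is false: `γ(20) = 9`. The bounds `n/4 ≲ γ(n) ≤ n/2` are improved to
`3n/7 ≤ γ(n) ≤ (11 n + 31) / 24`, and `γ(n)` is determined for
`n = 13, 15, 17, 19, 20, 22, 24, 26, 31, 33`.
-/

namespace Pool.Agent.Results.MP_a338c1_co.RookBounds

/-- `(a, b, c)` is a cell of the triangular board with `n ≥ 1` rows: `a + b + c = n - 1`. -/
def IsCell (n : ℕ) (p : ℕ × ℕ × ℕ) : Prop := p.1 + p.2.1 + p.2.2 + 1 = n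

/-- The rook on `p` covers `q`: they agree in at least one coordinate. -/
def Covers (p q : ℕ × ℕ × ℕ) : Prop := p.1 = q.1 ∨ p.2.1 = q.2.1 ∨ p.2.2 = q.2.2

/-- `S` is a covering set of rooks of the board with `n` rows. -/
def IsCovering (n : ℕ) (S : Finset (ℕ × ℕ × ℕ)) : Prop :=
  (∀ p ∈ S, IsCell n p) ∧ ∀ q, IsCell n q → ∃ p ∈ S, Covers p q

/-- `γ(n)`: the least number of rooks in a covering set. -/
noncomputable def gamma (n : ℕ) : ℕ := sInf {k | ∃ S : Finset (ℕ × ℕ × ℕ), IsCovering n S ∧ S.card = k}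

lemma gamma_le (n : ℕ) (S : Finset (ℕ × ℕ × ℕ)) (hS : IsCovering n S) : gamma n ≤ S.card :=
  Nat.sInf_le ⟨S, hS, rfl⟩

lemma exists_covering (n : ℕ) : ∃ S : Finset (ℕ × ℕ × ℕ), IsCovering n S := by
  refine ⟨((Finset.range n) ×ˢ (Finset.range n) ×ˢ (Finset.range n)).filter
    (fun p => p.1 + p.2.1 + p.2.2 + 1 = n), ?_, ?_⟩
  · intro p hp
    exact (Finset.mem_filter.1 hp).2
  · intro q hq
    refine ⟨q, ?_, Or.inl rfl⟩
    unfold IsCell at hq
    simp only [Finset.mem_filter, Finset.mem_product, Finset.mem_range]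
    refine ⟨⟨?_, ?_, ?_⟩, hq⟩ <;> omega

lemma gamma_spec (n : ℕ) : ∃ S : Finset (ℕ × ℕ × ℕ), IsCovering n S ∧ S.card = gamma n := by
  obtain ⟨S, hS⟩ := exists_covering n
  exact Nat.sInf_mem (s := {k | ∃ S : Finset (ℕ × ℕ × ℕ), IsCovering n S ∧ S.card = k})
    ⟨S.card, S, hS, rfl⟩

/-! ### Lower bound -/

/-- counting: a set of values of a coordinate function on `S` -/
lemma card_le_sum {S : Finset (ℕ × ℕ × ℕ)} (f : ℕ × ℕ × ℕ → ℕ) (x : ℕ)
    (h : ∀ i < x, ∃ p ∈ S, f p = i) : x ≤ ∑ p ∈ S, (if f p < x then 1 else 0) := by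
  classical
  have h1 : Finset.range x ⊆ (S.filter (fun p => f p < x)).image f := by
    intro i hi
    rw [Finset.mem_range] at hi
    obtain ⟨p, hp, hpi⟩ := h i hi
    exact Finset.mem_image.2 ⟨p, Finset.mem_filter.2 ⟨hp, by omega⟩, hpi⟩
  have h2 := (Finset.card_le_card h1).trans Finset.card_image_le
  rw [Finset.card_range, Finset.card_filter] at h2
  exact h2

/-- counting along a line: every cell of the line is met by one of two coordinate functions -/
lemma line_le_sum {S : Finset (ℕ × ℕ × ℕ)} (f g : ℕ × ℕ × ℕ → ℕ) (y z m : ℕ)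
    (h : ∀ i < m, ∃ p ∈ S, f p = y + i ∨ g p = z + (m - 1 - i)) :
    m ≤ ∑ p ∈ S, ((if y ≤ f p ∧ f p < y + m then 1 else 0) +
      (if z ≤ g p ∧ g p < z + m then 1 else 0)) := by
  classical
  have h1 : Finset.range m ⊆ (S.filter (fun p => y ≤ f p ∧ f p < y + m)).image (fun p => f p - y) ∪
      (S.filter (fun p => z ≤ g p ∧ g p < z + m)).image (fun p => m - 1 - (g p - z)) := by
    intro i hi
    rw [Finset.mem_range] at hi
    obtain ⟨p, hp, hpi | hpi⟩ := h i hi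
    · refine Finset.mem_union_left _ (Finset.mem_image.2 ⟨p, Finset.mem_filter.2 ⟨hp, ?_⟩, ?_⟩)
      · omega
      · omega
    · refine Finset.mem_union_right _ (Finset.mem_image.2 ⟨p, Finset.mem_filter.2 ⟨hp, ?_⟩, ?_⟩)
      · omega
      · omega
  have h2 := (Finset.card_le_card h1).trans ((Finset.card_union_le _ _).trans
    (Nat.add_le_add Finset.card_image_le Finset.card_image_le))
  rw [Finset.card_range, Finset.card_filter, Finset.card_filter] at h2
  rw [Finset.sum_add_distrib]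
  exact h2

/-- the least value which is not attained -/
lemma exists_mex (S : Finset (ℕ × ℕ × ℕ)) (f : ℕ × ℕ × ℕ → ℕ) :
    ∃ x, (∀ p ∈ S, f p ≠ x) ∧ ∀ i < x, ∃ p ∈ S, f p = i := by
  classical
  have hex : ∃ x, x ∉ S.image f := Infinite.exists_notMem_finset _
  refine ⟨Nat.find hex, ?_, ?_⟩
  · intro p hp hpx
    exact Nat.find_spec hex (Finset.mem_image.2 ⟨p, hp, hpx⟩)
  · intro i hi
    have := Nat.find_min hex hi
    rw [not_not, Finset.mem_image] at this
    exact this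

theorem lower (n : ℕ) (hn : 1 ≤ n) (S : Finset (ℕ × ℕ × ℕ)) (hS : IsCovering n S) :
    3 * n ≤ 7 * S.card := by
  obtain ⟨hcell, hcov⟩ := hS
  obtain ⟨x, hx1, hx2⟩ := exists_mex S (fun p => p.1)
  obtain ⟨y, hy1, hy2⟩ := exists_mex S (fun p => p.2.1)
  obtain ⟨z, hz1, hz2⟩ := exists_mex S (fun p => p.2.2)
  by_cases hT : n ≤ x + y + z
  · -- corner case
    obtain ⟨x', y', z', hx', hy', hz', hsum⟩ :
        ∃ x' y' z', x' ≤ x ∧ y' ≤ y ∧ z' ≤ z ∧ x' + y' + z' = n := by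
      refine ⟨min x n, min y (n - min x n), n - min x n - min y (n - min x n), ?_, ?_, ?_, ?_⟩ <;>
        omega
    have e1 := card_le_sum (S := S) (fun p => p.1) x' (fun i hi => hx2 i (by omega))
    have e2 := card_le_sum (S := S) (fun p => p.2.1) y' (fun i hi => hy2 i (by omega))
    have e3 := card_le_sum (S := S) (fun p => p.2.2) z' (fun i hi => hz2 i (by omega))
    have e4 : ∑ p ∈ S, ((if p.1 < x' then 1 else 0) + (if p.2.1 < y' then 1 else 0) +
        (if p.2.2 < z' then 1 else 0)) ≤ ∑ p ∈ S, 2 := by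
      refine Finset.sum_le_sum (fun p hp => ?_)
      have := hcell p hp
      unfold IsCell at this
      split_ifs <;> omega
    rw [Finset.sum_const, Finset.sum_add_distrib, Finset.sum_add_distrib, smul_eq_mul] at e4
    omega
  · obtain ⟨m, hm⟩ : ∃ m, n = x + y + z + m := ⟨n - (x + y + z), by omega⟩
    have hm1 : 1 ≤ m := by omega
    have e1 := card_le_sum (S := S) (fun p => p.1) x hx2
    have e2 := card_le_sum (S := S) (fun p => p.2.1) y hy2
    have e3 := card_le_sum (S := S) (fun p => p.2.2) z hz2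
    have l1 := line_le_sum (S := S) (fun p => p.2.1) (fun p => p.2.2) y z m (by
      intro i hi
      obtain ⟨p, hp, hpc⟩ := hcov (x, y + i, z + (m - 1 - i)) (by unfold IsCell; simp only; omega)
      unfold Covers at hpc
      rcases hpc with hpc | hpc | hpc
      · exact absurd hpc (hx1 p hp)
      · exact ⟨p, hp, Or.inl hpc⟩
      · exact ⟨p, hp, Or.inr hpc⟩)
    have l2 := line_le_sum (S := S) (fun p => p.1) (fun p => p.2.2) x z m (by
      intro i hi
      obtain ⟨p, hp, hpc⟩ := hcov (x + i, y, z + (m - 1 - i)) (by unfold IsCell; simp only; omega)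
      unfold Covers at hpc
      rcases hpc with hpc | hpc | hpc
      · exact ⟨p, hp, Or.inl hpc⟩
      · exact absurd hpc (hy1 p hp)
      · exact ⟨p, hp, Or.inr hpc⟩)
    have l3 := line_le_sum (S := S) (fun p => p.1) (fun p => p.2.1) x y m (by
      intro i hi
      obtain ⟨p, hp, hpc⟩ := hcov (x + i, y + (m - 1 - i), z) (by unfold IsCell; simp only; omega)
      unfold Covers at hpc
      rcases hpc with hpc | hpc | hpc
      · exact ⟨p, hp, Or.inl hpc⟩
      · exact ⟨p, hp, Or.inr hpc⟩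
      · exact absurd hpc (hz1 p hp))
    have key : ∑ p ∈ S, (3 * ((if p.1 < x then 1 else 0) + (if p.2.1 < y then 1 else 0) +
        (if p.2.2 < z then 1 else 0)) +
        (((if y ≤ p.2.1 ∧ p.2.1 < y + m then 1 else 0) +
          (if z ≤ p.2.2 ∧ p.2.2 < z + m then 1 else 0)) +
        ((if x ≤ p.1 ∧ p.1 < x + m then 1 else 0) +
          (if z ≤ p.2.2 ∧ p.2.2 < z + m then 1 else 0)) +
        ((if x ≤ p.1 ∧ p.1 < x + m then 1 else 0) +
          (if y ≤ p.2.1 ∧ p.2.1 < y + m then 1 else 0)))) ≤ ∑ p ∈ S, 7 := by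
      refine Finset.sum_le_sum (fun p hp => ?_)
      have := hcell p hp
      unfold IsCell at this
      split_ifs <;> omega
    simp only [Finset.sum_add_distrib, ← Finset.mul_sum, Finset.sum_const, smul_eq_mul]
      at key l1 l2 l3
    omega

theorem three_mul_le (n : ℕ) (hn : 1 ≤ n) : 3 * n ≤ 7 * gamma n := by
  obtain ⟨S, hS, hc⟩ := gamma_spec n
  rw [← hc]
  exact lower n hn S hS

/-! ### Upper bounds -/

theorem gamma_add_one (n : ℕ) (hn : 1 ≤ n) : gamma (n + 1) ≤ gamma n + 1 := by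
  classical
  obtain ⟨S, ⟨hcell, hcov⟩, hc⟩ := gamma_spec n
  refine (gamma_le (n + 1) (insert (0, 0, n) (S.image (fun p => (p.1 + 1, p.2.1, p.2.2))))
    ⟨?_, ?_⟩).trans ?_
  · intro p hp
    rcases Finset.mem_insert.1 hp with rfl | hp
    · unfold IsCell; simp only; omega
    · obtain ⟨q, hq, rfl⟩ := Finset.mem_image.1 hp
      have := hcell q hq
      unfold IsCell at this ⊢
      simp only; omega
  · rintro ⟨a, b, c⟩ hq
    unfold IsCell at hq
    simp only at hq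
    rcases Nat.eq_zero_or_pos a with ha | ha
    · exact ⟨_, Finset.mem_insert_self _ _, Or.inl ha.symm⟩
    · obtain ⟨p, hp, hpc⟩ := hcov (a - 1, b, c) (by unfold IsCell; simp only; omega)
      refine ⟨_, Finset.mem_insert_of_mem (Finset.mem_image_of_mem _ hp), ?_⟩
      unfold Covers at hpc ⊢
      simp only at hpc ⊢
      omega
  · refine (Finset.card_insert_le _ _).trans ?_
    have := Finset.card_image_le (s := S) (f := fun p : ℕ × ℕ × ℕ => (p.1 + 1, p.2.1, p.2.2))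
    omega

theorem gamma_add_two (n : ℕ) (hn : 1 ≤ n) : gamma (n + 2) ≤ gamma n + 1 := by
  classical
  obtain ⟨S, ⟨hcell, hcov⟩, hc⟩ := gamma_spec n
  refine (gamma_le (n + 2) (insert (0, 0, n + 1) (S.image (fun p => (p.1 + 1, p.2.1 + 1, p.2.2))))
    ⟨?_, ?_⟩).trans ?_
  · intro p hp
    rcases Finset.mem_insert.1 hp with rfl | hp
    · unfold IsCell; simp only; omega
    · obtain ⟨q, hq, rfl⟩ := Finset.mem_image.1 hp
      have := hcell q hq
      unfold IsCell at this ⊢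
      simp only; omega
  · rintro ⟨a, b, c⟩ hq
    unfold IsCell at hq
    simp only at hq
    rcases Nat.eq_zero_or_pos a with ha | ha
    · exact ⟨_, Finset.mem_insert_self _ _, Or.inl ha.symm⟩
    rcases Nat.eq_zero_or_pos b with hb | hb
    · exact ⟨_, Finset.mem_insert_self _ _, Or.inr (Or.inl hb.symm)⟩
    · obtain ⟨p, hp, hpc⟩ := hcov (a - 1, b - 1, c) (by unfold IsCell; simp only; omega)
      refine ⟨_, Finset.mem_insert_of_mem (Finset.mem_image_of_mem _ hp), ?_⟩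
      unfold Covers at hpc ⊢
      simp only at hpc ⊢
      omega
  · refine (Finset.card_insert_le _ _).trans ?_
    have := Finset.card_image_le (s := S) (f := fun p : ℕ × ℕ × ℕ => (p.1 + 1, p.2.1 + 1, p.2.2))
    omega

/-- the rooks of the family, as functions of an index -/
def fam (k : ℕ) : Finset (ℕ × ℕ × ℕ) :=
  (Finset.range (2 * k + 2)).image (fun h => (4 * k + 2 - 2 * h, 16 * k + 12 - 2 * h, 4 * k + 5 + 4 * h)) ∪
  (Finset.range (2 * k + 2)).image (fun h => (4 * k + 4 + 4 * h, 4 * k + 2 - 2 * h, 16 * k + 13 - 2 * h)) ∪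
  (Finset.range (2 * k + 2)).image (fun h => (16 * k + 12 - 2 * h, 4 * k + 4 + 4 * h, 4 * k + 3 - 2 * h)) ∪
  (Finset.range (k + 1)).image (fun u => (4 * k + 6 + 4 * u, 12 * k + 6 - 8 * u, 8 * k + 7 + 4 * u)) ∪
  (Finset.range k).image (fun t => (8 * k + 10 + 4 * t, 12 * k + 2 - 8 * t, 4 * k + 7 + 4 * t)) ∪
  (Finset.range k).image (fun i => (2 * i + 1, 2 * i + 1, 24 * k + 17 - 4 * i)) ∪
  (Finset.range (k + 1)).image (fun j => (2 * k + 1 + 2 * j, 22 * k + 18 - 4 * j, 2 * j)) ∪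
  (Finset.range (k + 1)).image (fun j => (20 * k + 16 - 4 * j, 2 * k + 1 + 2 * j, 2 * k + 2 + 2 * j))

lemma card_fam (k : ℕ) : (fam k).card ≤ 11 * k + 9 := by
  unfold fam
  have h : ∀ (m : ℕ) (f : ℕ → ℕ × ℕ × ℕ), ((Finset.range m).image f).card ≤ m := fun m f =>
    Finset.card_image_le.trans (Finset.card_range m).le
  have u := fun (A B : Finset (ℕ × ℕ × ℕ)) => Finset.card_union_le A B
  refine (u _ _).trans ?_
  refine (Nat.add_le_add ((u _ _).trans (Nat.add_le_add ((u _ _).trans (Nat.add_le_add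
    ((u _ _).trans (Nat.add_le_add ((u _ _).trans (Nat.add_le_add ((u _ _).trans (Nat.add_le_add
    ((u _ _).trans (Nat.add_le_add (h _ _) (h _ _))) (h _ _))) (h _ _))) (h _ _))) (h _ _)))
    (h _ _))) (h _ _)).trans ?_
  omega

lemma mem_fam (k : ℕ) (p : ℕ × ℕ × ℕ) : p ∈ fam k ↔
    (∃ h < 2 * k + 2, (4 * k + 2 - 2 * h, 16 * k + 12 - 2 * h, 4 * k + 5 + 4 * h) = p) ∨
    (∃ h < 2 * k + 2, (4 * k + 4 + 4 * h, 4 * k + 2 - 2 * h, 16 * k + 13 - 2 * h) = p) ∨
    (∃ h < 2 * k + 2, (16 * k + 12 - 2 * h, 4 * k + 4 + 4 * h, 4 * k + 3 - 2 * h) = p) ∨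
    (∃ u < k + 1, (4 * k + 6 + 4 * u, 12 * k + 6 - 8 * u, 8 * k + 7 + 4 * u) = p) ∨
    (∃ t < k, (8 * k + 10 + 4 * t, 12 * k + 2 - 8 * t, 4 * k + 7 + 4 * t) = p) ∨
    (∃ i < k, (2 * i + 1, 2 * i + 1, 24 * k + 17 - 4 * i) = p) ∨
    (∃ j < k + 1, (2 * k + 1 + 2 * j, 22 * k + 18 - 4 * j, 2 * j) = p) ∨
    (∃ j < k + 1, (20 * k + 16 - 4 * j, 2 * k + 1 + 2 * j, 2 * k + 2 + 2 * j) = p) := by
  unfold fam
  simp only [Finset.mem_union, Finset.mem_image, Finset.mem_range, or_assoc]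

lemma fam_fst (k a : ℕ) (h : a ≤ 4 * k + 2 ∨ (a % 2 = 0 ∧ 4 * k + 4 ≤ a ∧ a ≤ 16 * k + 12)) :
    ∃ p ∈ fam k, p.1 = a := by
  by_cases h1 : a ≤ 4 * k + 2
  · by_cases h2 : a % 2 = 0
    · exact ⟨_, (mem_fam k _).2 (Or.inl ⟨(4 * k + 2 - a) / 2, by omega, rfl⟩), by simp only; omega⟩
    · by_cases h3 : a < 2 * k
      · exact ⟨_, (mem_fam k _).2 (Or.inr (Or.inr (Or.inr (Or.inr (Or.inr (Or.inl
          ⟨a / 2, by omega, rfl⟩)))))), by simp only; omega⟩
      · exact ⟨_, (mem_fam k _).2 (Or.inr (Or.inr (Or.inr (Or.inr (Or.inr (Or.inr (Or.inl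
          ⟨(a - 2 * k - 1) / 2, by omega, rfl⟩))))))), by simp only; omega⟩
  · obtain ⟨h2, h3, h4⟩ := h.resolve_left h1
    by_cases h5 : 12 * k + 10 ≤ a
    · exact ⟨_, (mem_fam k _).2 (Or.inr (Or.inr (Or.inl ⟨(16 * k + 12 - a) / 2, by omega, rfl⟩))),
        by simp only; omega⟩
    · by_cases h6 : a % 4 = 0
      · exact ⟨_, (mem_fam k _).2 (Or.inr (Or.inl ⟨(a - 4 * k - 4) / 4, by omega, rfl⟩)),
          by simp only; omega⟩
      · by_cases h7 : a ≤ 8 * k + 6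
        · exact ⟨_, (mem_fam k _).2 (Or.inr (Or.inr (Or.inr (Or.inl
            ⟨(a - 4 * k - 6) / 4, by omega, rfl⟩)))), by simp only; omega⟩
        · exact ⟨_, (mem_fam k _).2 (Or.inr (Or.inr (Or.inr (Or.inr (Or.inl
            ⟨(a - 8 * k - 10) / 4, by omega, rfl⟩))))), by simp only; omega⟩

lemma fam_snd (k b : ℕ) (h : b ≤ 4 * k + 2 ∨ (b % 2 = 0 ∧ 4 * k + 4 ≤ b ∧ b ≤ 16 * k + 12)) :
    ∃ p ∈ fam k, p.2.1 = b := by
  by_cases h1 : b ≤ 4 * k + 2
  · by_cases h2 : b % 2 = 0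
    · exact ⟨_, (mem_fam k _).2 (Or.inr (Or.inl ⟨(4 * k + 2 - b) / 2, by omega, rfl⟩)),
        by simp only; omega⟩
    · by_cases h3 : b < 2 * k
      · exact ⟨_, (mem_fam k _).2 (Or.inr (Or.inr (Or.inr (Or.inr (Or.inr (Or.inl
          ⟨b / 2, by omega, rfl⟩)))))), by simp only; omega⟩
      · exact ⟨_, (mem_fam k _).2 (Or.inr (Or.inr (Or.inr (Or.inr (Or.inr (Or.inr (Or.inr
          ⟨(b - 2 * k - 1) / 2, by omega, rfl⟩))))))), by simp only; omega⟩
  · obtain ⟨h2, h3, h4⟩ := h.resolve_left h1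
    by_cases h5 : 12 * k + 10 ≤ b
    · exact ⟨_, (mem_fam k _).2 (Or.inl ⟨(16 * k + 12 - b) / 2, by omega, rfl⟩),
        by simp only; omega⟩
    · by_cases h6 : b % 4 = 0
      · exact ⟨_, (mem_fam k _).2 (Or.inr (Or.inr (Or.inl ⟨(b - 4 * k - 4) / 4, by omega, rfl⟩))),
          by simp only; omega⟩
      · by_cases h7 : (b + 4 * k + 2) % 8 = 0
        · exact ⟨_, (mem_fam k _).2 (Or.inr (Or.inr (Or.inr (Or.inl
            ⟨(12 * k + 6 - b) / 8, by omega, rfl⟩)))), by simp only; omega⟩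
        · exact ⟨_, (mem_fam k _).2 (Or.inr (Or.inr (Or.inr (Or.inr (Or.inl
            ⟨(12 * k + 2 - b) / 8, by omega, rfl⟩))))), by simp only; omega⟩

lemma fam_trd (k c : ℕ) (h : c ≤ 4 * k + 3 ∨ (c % 2 = 1 ∧ 4 * k + 5 ≤ c ∧ c ≤ 16 * k + 13)) :
    ∃ p ∈ fam k, p.2.2 = c := by
  by_cases h1 : c ≤ 4 * k + 3
  · by_cases h2 : c % 2 = 1
    · exact ⟨_, (mem_fam k _).2 (Or.inr (Or.inr (Or.inl ⟨(4 * k + 3 - c) / 2, by omega, rfl⟩))),
        by simp only; omega⟩
    · by_cases h3 : c ≤ 2 * k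
      · exact ⟨_, (mem_fam k _).2 (Or.inr (Or.inr (Or.inr (Or.inr (Or.inr (Or.inr (Or.inl
          ⟨c / 2, by omega, rfl⟩))))))), by simp only; omega⟩
      · exact ⟨_, (mem_fam k _).2 (Or.inr (Or.inr (Or.inr (Or.inr (Or.inr (Or.inr (Or.inr
          ⟨(c - 2 * k - 2) / 2, by omega, rfl⟩))))))), by simp only; omega⟩
  · obtain ⟨h2, h3, h4⟩ := h.resolve_left h1
    by_cases h5 : 12 * k + 11 ≤ c
    · exact ⟨_, (mem_fam k _).2 (Or.inr (Or.inl ⟨(16 * k + 13 - c) / 2, by omega, rfl⟩)),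
        by simp only; omega⟩
    · by_cases h6 : c % 4 = 1
      · exact ⟨_, (mem_fam k _).2 (Or.inl ⟨(c - 4 * k - 5) / 4, by omega, rfl⟩),
          by simp only; omega⟩
      · by_cases h7 : 8 * k + 7 ≤ c
        · exact ⟨_, (mem_fam k _).2 (Or.inr (Or.inr (Or.inr (Or.inl
            ⟨(c - 8 * k - 7) / 4, by omega, rfl⟩)))), by simp only; omega⟩
        · exact ⟨_, (mem_fam k _).2 (Or.inr (Or.inr (Or.inr (Or.inr (Or.inl
            ⟨(c - 4 * k - 7) / 4, by omega, rfl⟩))))), by simp only; omega⟩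

theorem fam_covering (k : ℕ) : IsCovering (24 * k + 20) (fam k) := by
  constructor
  · intro p hp
    rw [mem_fam] at hp
    unfold IsCell
    rcases hp with ⟨h, hh, rfl⟩ | ⟨h, hh, rfl⟩ | ⟨h, hh, rfl⟩ | ⟨h, hh, rfl⟩ | ⟨h, hh, rfl⟩ |
      ⟨h, hh, rfl⟩ | ⟨h, hh, rfl⟩ | ⟨h, hh, rfl⟩ <;> simp only <;> omega
  · rintro ⟨a, b, c⟩ hq
    unfold IsCell at hq
    simp only at hq
    by_cases ha : a ≤ 4 * k + 2 ∨ (a % 2 = 0 ∧ 4 * k + 4 ≤ a ∧ a ≤ 16 * k + 12)
    · obtain ⟨p, hp, hpa⟩ := fam_fst k a ha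
      exact ⟨p, hp, Or.inl hpa⟩
    by_cases hb : b ≤ 4 * k + 2 ∨ (b % 2 = 0 ∧ 4 * k + 4 ≤ b ∧ b ≤ 16 * k + 12)
    · obtain ⟨p, hp, hpa⟩ := fam_snd k b hb
      exact ⟨p, hp, Or.inr (Or.inl hpa)⟩
    · obtain ⟨p, hp, hpa⟩ := fam_trd k c (by omega)
      exact ⟨p, hp, Or.inr (Or.inr hpa)⟩

theorem gamma_fam (k : ℕ) : gamma (24 * k + 20) ≤ 11 * k + 9 :=
  (gamma_le _ _ (fam_covering k)).trans (card_fam k)

theorem gamma_add_even (n j : ℕ) (hn : 1 ≤ n) : gamma (n + 2 * j) ≤ gamma n + j := by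
  induction j with
  | zero => simp
  | succ j ih =>
    have := gamma_add_two (n + 2 * j) (by omega)
    have h2 : n + 2 * (j + 1) = n + 2 * j + 2 := by ring
    rw [h2]
    omega

theorem upper (n : ℕ) (hn : 20 ≤ n) : 24 * gamma n ≤ 11 * n + 31 := by
  obtain ⟨k, r, hr, rfl⟩ : ∃ k r, r < 24 ∧ n = 24 * k + 20 + r :=
    ⟨(n - 20) / 24, (n - 20) % 24, by omega, by omega⟩
  have h1 := gamma_fam k
  by_cases hpar : r % 2 = 0
  · have h2 := gamma_add_even (24 * k + 20) (r / 2) (by omega)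
    have h3 : 24 * k + 20 + 2 * (r / 2) = 24 * k + 20 + r := by omega
    rw [h3] at h2
    omega
  · have h2 := gamma_add_even (24 * k + 20) (r / 2) (by omega)
    have h4 := gamma_add_one (24 * k + 20 + 2 * (r / 2)) (by omega)
    have h3 : 24 * k + 20 + 2 * (r / 2) + 1 = 24 * k + 20 + r := by omega
    rw [h3] at h4
    omega

/-- explicit coverings are checked by evaluation -/
lemma gamma_le_of_list (n : ℕ) (L : List (ℕ × ℕ × ℕ))
    (h1 : ∀ p ∈ L, p.1 + p.2.1 + p.2.2 + 1 = n)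
    (h2 : ∀ a ∈ List.range n, ∀ b ∈ List.range (n - a), ∃ p ∈ L, p.1 = a ∨ p.2.1 = b ∨
      p.2.2 = n - 1 - a - b) : gamma n ≤ L.length := by
  classical
  refine (gamma_le n L.toFinset ⟨fun p hp => h1 p (List.mem_toFinset.1 hp), ?_⟩).trans
    (List.toFinset_card_le L)
  rintro ⟨a, b, c⟩ hq
  unfold IsCell at hq
  simp only at hq
  obtain ⟨p, hp, hpc⟩ := h2 a (List.mem_range.2 (by omega)) b (List.mem_range.2 (by omega))
  refine ⟨p, List.mem_toFinset.2 hp, ?_⟩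
  unfold Covers
  simp only
  omega

lemma gamma_seven : gamma 7 ≤ 3 :=
  gamma_le_of_list 7 [(0, 2, 4), (2, 4, 0), (4, 0, 2)] (by decide) (by decide)

lemma gamma_thirtyone : gamma 31 ≤ 14 :=
  gamma_le_of_list 31 [(0, 10, 20), (20, 0, 10), (10, 20, 0), (2, 12, 16), (16, 2, 12), (14, 14, 2),
    (4, 8, 18), (12, 4, 14), (8, 18, 4), (6, 16, 8), (18, 6, 6), (3, 3, 24), (1, 26, 3), (28, 1, 1)]
    (by decide) (by decide +kernel)

/-- **Main result.**
* `γ(n) ≥ 3n/7` for all `n ≥ 1`;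
* `γ(24k+20) ≤ 11k+9` for all `k`, and `γ(n) ≤ (11n+31)/24` for all `n ≥ 20`;
* `γ(n) < ⌊n/2⌋` for all even `n ≥ 20` and all odd `n ≥ 31`, so that the formula
  `γ(n) = ⌊n/2⌋` suggested by the small values is false;
* the exact values of `γ(n)` for `n = 13, 15, 17, 19, 20, 22, 24, 26, 31, 33`. -/
theorem result :
    (∀ n : ℕ, 1 ≤ n → 3 * n ≤ 7 * gamma n) ∧
    (∀ k : ℕ, gamma (24 * k + 20) ≤ 11 * k + 9) ∧
    (∀ n : ℕ, 20 ≤ n → 24 * gamma n ≤ 11 * n + 31) ∧
    (∀ n : ℕ, 20 ≤ n → Even n → gamma n < n / 2) ∧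
    (∀ n : ℕ, 31 ≤ n → Odd n → gamma n < n / 2) ∧
    gamma 13 = 6 ∧ gamma 15 = 7 ∧ gamma 17 = 8 ∧ gamma 19 = 9 ∧ gamma 20 = 9 ∧ gamma 22 = 10 ∧
    gamma 24 = 11 ∧ gamma 26 = 12 ∧ gamma 31 = 14 ∧ gamma 33 = 15 := by
  have L := three_mul_le
  have h7 := gamma_seven
  have h31 := gamma_thirtyone
  have h20 : gamma 20 ≤ 9 := gamma_fam 0
  refine ⟨L, gamma_fam, upper, ?_, ?_, ?_, ?_, ?_, ?_, ?_, ?_, ?_, ?_, ?_, ?_⟩
  · intro n hn he
    obtain ⟨r, hr⟩ := he
    have := gamma_add_even 20 ((n - 20) / 2) (by norm_num)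
    have h3 : 20 + 2 * ((n - 20) / 2) = n := by omega
    rw [h3] at this
    omega
  · intro n hn he
    obtain ⟨r, hr⟩ := he
    have := gamma_add_even 31 ((n - 31) / 2) (by norm_num)
    have h3 : 31 + 2 * ((n - 31) / 2) = n := by omega
    rw [h3] at this
    omega
  · have := gamma_add_even 7 3 (by norm_num); have := L 13 (by norm_num); norm_num at *; omega
  · have := gamma_add_even 7 4 (by norm_num); have := L 15 (by norm_num); norm_num at *; omega
  · have := gamma_add_even 7 5 (by norm_num); have := L 17 (by norm_num); norm_num at *; omega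
  · have := gamma_add_even 7 6 (by norm_num); have := L 19 (by norm_num); norm_num at *; omega
  · have := L 20 (by norm_num); omega
  · have := gamma_add_even 20 1 (by norm_num); have := L 22 (by norm_num); norm_num at *; omega
  · have := gamma_add_even 20 2 (by norm_num); have := L 24 (by norm_num); norm_num at *; omega
  · have := gamma_add_even 20 3 (by norm_num); have := L 26 (by norm_num); norm_num at *; omega
  · have := L 31 (by norm_num); omega
  · have := gamma_add_even 31 1 (by norm_num); have := L 33 (by norm_num); norm_num at *; omega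

end Pool.Agent.Results.MP_a338c1_co.RookBounds
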